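import Pool.Agent.Helper94.PU.Pl
open MeasureTheory Metric Set Filter Topology Real
open scoped ENNReal NNReal

/-!
Row STEP of project PU: following an arm of a tripod.
-/

namespace H11ST
namespace PU

theorem line_in_ball {y e : E 2} {s s' : ℝ} (hy : ‖y‖ < 1) (hs : ‖y + s • e‖ < 1) (h0 : 0 ≤ s')
    (h1 : s' ≤ s) : ‖y + s' • e‖ ≤ max ‖y‖ ‖y + s • e‖ := by
  rcases eq_or_lt_of_le (h0.trans h1) with h | h
  · have : s' = s := le_antisymm h1 (by linarith)
    rw [this]; exact le_max_right _ _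
  have hc : Convex ℝ (closedBall (0 : E 2) (max ‖y‖ ‖y + s • e‖)) := convex_closedBall _ _
  have hy' : y ∈ closedBall (0 : E 2) (max ‖y‖ ‖y + s • e‖) := by
    rw [mem_closedBall, dist_zero_right]; exact le_max_left _ _
  have hs' : y + s • e ∈ closedBall (0 : E 2) (max ‖y‖ ‖y + s • e‖) := by
    rw [mem_closedBall, dist_zero_right]; exact le_max_right _ _
  have h2 := hc hy' hs' (a := 1 - s' / s) (b := s' / s)
    (by rw [sub_nonneg, div_le_one h]; exact h1) (div_nonneg h0 h.le) (by ring)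
  rw [mem_closedBall, dist_zero_right] at h2
  have e1 : (1 - s' / s) • y + (s' / s) • (y + s • e) = y + s' • e := by
    rw [smul_add, smul_smul, div_mul_cancel₀ _ h.ne', ← add_assoc, ← add_smul]
    simp
  rwa [e1] at h2

/-- the first tripod point on a ray -/
theorem ray_step {S : Set (E 2)} (hS : IsClosed S)
    (hreg : ∀ z ∈ S ∩ ball 0 1, (∃ u ε, Lin S z u ε) ∨ ∃ u ε, Tri S z u ε) {y e : E 2} {s ε₀ : ℝ}
    (he : ‖e‖ = 1) (hy : ‖y‖ < 1) (hs : ‖y + s • e‖ < 1) (hs0 : 0 < s) (hε₀ : 0 < ε₀)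
    (hstart : ∀ s', 0 < s' → s' < ε₀ → ∃ ε, Lin S (y + s' • e) e ε) :
    (∀ s', 0 < s' → s' ≤ s → ∃ ε, Lin S (y + s' • e) e ε) ∨
    ∃ s', 0 < s' ∧ s' ≤ s ∧ Ray S y e s' ∧ ∃ u ε, Tri S (y + s' • e) u ε ∧ u 0 = -e := by
  have hbd : ∀ s', 0 ≤ s' → s' ≤ s → ‖y + s' • e‖ ≤ max ‖y‖ ‖y + s • e‖ := fun s' h0 h1 =>
    line_in_ball hy hs h0 h1
  have hm : max ‖y‖ ‖y + s • e‖ < 1 := max_lt hy hs
  set Bad : Set ℝ := {s' | 0 < s' ∧ s' ≤ s ∧ ∃ u ε, Tri S (y + s' • e) u ε} with hBad
  have hfin : Bad.Finite := by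
    have h1 := tri_finite hS (x := (0 : E 2)) hm hreg
    have hinj : Set.InjOn (fun s' : ℝ => y + s' • e) Bad := by
      intro a _ b _ hab
      have h2 : a • e = b • e := add_left_cancel hab
      have h3 : e ≠ 0 := by
        rintro rfl
        rw [norm_zero] at he
        norm_num at he
      exact smul_left_injective ℝ h3 h2
    refine Set.Finite.of_finite_image (h1.subset ?_) hinj
    rintro _ ⟨s', ⟨h2, h3, u, ε, hT⟩, rfl⟩
    have hz : y + s' • e ∈ S := by
      have := hT.mem (i := 0) (s := 0) le_rfl hT.pos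
      simpa using this
    refine ⟨⟨hz, ?_⟩, u, ε, hT⟩
    rw [mem_closedBall, dist_zero_right]
    exact hbd s' h2.le h3
  by_cases hne : Bad.Nonempty
  · right
    obtain ⟨s', hs', hmin⟩ := hfin.exists_minimal hne
    have hmin' : ∀ t ∈ Bad, s' ≤ t := fun t ht => by
      rcases le_total s' t with h | h
      · exact h
      · exact hmin ht h
    obtain ⟨h2, h3, u, ε, hT⟩ := hs'
    have hray : Ray S y e s' := by
      intro t ht0 ht1
      refine follow hS he hε₀ (s₁ := t) ht0 hstart ?_ t ht0 le_rfl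
      intro q hq0 hq1 hqS
      have hqb : y + q • e ∈ S ∩ ball 0 1 := by
        refine ⟨hqS, ?_⟩
        rw [mem_ball, dist_zero_right]
        exact (hbd q hq0.le (by linarith)).trans_lt hm
      rcases hreg _ hqb with h | h
      · exact h
      · exfalso
        have := hmin' q ⟨hq0, by linarith, h⟩
        linarith
    refine ⟨s', h2, h3, hray, ?_⟩
    -- the arm `-e`
    obtain ⟨i, hi⟩ : ∃ i, u i = -e := by
      set r := min s' ε / 2 with hr
      have hr0 : 0 < r := by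
        have := lt_min h2 hT.pos
        rw [hr]; linarith
      have hr1 : r < s' := by
        have := min_le_left s' ε
        rw [hr]; linarith
      have hr2 : r < ε := by
        have := min_le_right s' ε
        have := hT.pos
        rw [hr]; linarith
      obtain ⟨ε', hL⟩ := hray (s' - r) (by linarith) (by linarith)
      have e1 : y + (s' - r) • e = y + s' • e + r • (-e) := by
        rw [sub_smul, smul_neg]; abel
      have h4 : y + s' • e + r • (-e) ∈ S ∩ ball (y + s' • e) ε := by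
        refine ⟨by rw [← e1]; exact hL.z_mem, ?_⟩
        rw [mem_ball, dist_eq_norm]
        simp only [add_sub_cancel_left, smul_neg, norm_neg, norm_smul, he, Real.norm_eq_abs, mul_one,
          abs_of_pos hr0]
        exact hr2
      rw [hT.eq] at h4
      obtain ⟨i, t, ht0, _, ht⟩ := h4
      refine ⟨i, ?_⟩
      have h5 : r • (-e) = t • u i := add_left_cancel ht
      have h6 : r = t := by
        have := congrArg norm h5
        rw [norm_smul, norm_smul, norm_neg, he, hT.norm i, Real.norm_eq_abs, Real.norm_eq_abs,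
          abs_of_pos hr0, abs_of_nonneg ht0, mul_one, mul_one] at this
        exact this
      rw [← h6] at h5
      exact (smul_right_injective _ hr0.ne' h5).symm
    refine ⟨u ∘ (Equiv.swap 0 i), ε, tri_perm hT _, ?_⟩
    rw [Function.comp_apply, Equiv.swap_apply_left]
    exact hi
  · left
    refine follow hS he hε₀ hs0 hstart ?_
    intro q hq0 hq1 hqS
    have hqb : y + q • e ∈ S ∩ ball 0 1 := by
      refine ⟨hqS, ?_⟩
      rw [mem_ball, dist_zero_right]
      exact (hbd q hq0.le hq1).trans_lt hm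
    rcases hreg _ hqb with h | h
    · exact h
    · exact absurd ⟨q, hq0, hq1, h⟩ hne

/-- a tripod with the arm `-τ` -/
theorem ta_of_neg {S : Set (E 2)} {τ ν z : E 2} (h : Fr τ ν) {u : Fin 3 → E 2} {ε : ℝ}
    (hT : Tri S z u ε) (h0 : u 0 = -τ) : TA S (-τ) ν z := by
  have a1 : inner ℝ (-τ) (u 1) = -(1 / 2 : ℝ) := by rw [← h0]; exact hT.ang 0 1 (by decide)
  have a2 : inner ℝ (-τ) (u 2) = -(1 / 2 : ℝ) := by rw [← h0]; exact hT.ang 0 2 (by decide)
  have a3 : u 1 ≠ u 2 := h.t_ne (hT.norm 1) (hT.ang 1 2 (by decide))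
  rcases h.at120 (hT.norm 1) a1 with b1 | b1 <;> rcases h.at120 (hT.norm 2) a2 with b2 | b2
  · exact absurd (b1.trans b2.symm) a3
  · exact ⟨u, ε, hT, h0, by rw [b1, e2_neg], by rw [b2, e1_neg]⟩
  · refine ⟨u ∘ (Equiv.swap 1 2), ε, tri_perm hT _, ?_, ?_, ?_⟩
    · rw [Function.comp_apply, Equiv.swap_apply_of_ne_of_ne (by decide) (by decide)]; exact h0
    · rw [Function.comp_apply, Equiv.swap_apply_left, b2, e2_neg]
    · rw [Function.comp_apply, Equiv.swap_apply_right, b1, e1_neg]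
  · exact absurd (b1.trans b2.symm) a3

/-- a tripod with the arm `-e2` -/
theorem ta_of_neg' {S : Set (E 2)} {τ ν z : E 2} (h : Fr τ ν) {u : Fin 3 → E 2} {ε : ℝ}
    (hT : Tri S z u ε) (h0 : u 0 = -e2 τ ν) : TA S (-τ) ν z := by
  have a1 : inner ℝ (-e2 τ ν) (u 1) = -(1 / 2 : ℝ) := by rw [← h0]; exact hT.ang 0 1 (by decide)
  have a2 : inner ℝ (-e2 τ ν) (u 2) = -(1 / 2 : ℝ) := by rw [← h0]; exact hT.ang 0 2 (by decide)
  have a3 : u 1 ≠ u 2 := h.t_ne (hT.norm 1) (hT.ang 1 2 (by decide))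
  rcases h.at120' (hT.norm 1) a1 with b1 | b1 <;> rcases h.at120' (hT.norm 2) a2 with b2 | b2
  · exact absurd (b1.trans b2.symm) a3
  · have hT' := tri_perm hT (Equiv.swap 0 1)
    refine ta_of_neg h hT' ?_
    rw [Function.comp_apply, Equiv.swap_apply_left, b1]
  · have hT' := tri_perm hT (Equiv.swap 0 2)
    refine ta_of_neg h hT' ?_
    rw [Function.comp_apply, Equiv.swap_apply_left, b2]
  · exact absurd (b1.trans b2.symm) a3

theorem step : ST_STEP := by
  intro S hS hreg τ ν y hF hTA hy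
  obtain ⟨u, ε, hT, h0, h1, h2⟩ := hTA
  constructor
  · intro s hs0 hs1
    obtain ⟨ε₀, hε₀, hst⟩ := tri_arm hT 0
    rw [h0] at hst
    rcases ray_step hS hreg hF.t1 hy hs1 hs0 hε₀ hst with h | ⟨s', a1, a2, a3, v, ε', hT', hv⟩
    · exact Or.inl ⟨fun s' b1 b2 => h s' b1 b2.le, h s hs0 le_rfl⟩
    · exact Or.inr ⟨s', a1, a2, a3, ta_of_neg hF hT' hv⟩
  · intro s hs0 hs1
    obtain ⟨ε₀, hε₀, hst⟩ := tri_arm hT 1
    rw [h1] at hst
    rcases ray_step hS hreg hF.e2_unit hy hs1 hs0 hε₀ hst with h | ⟨s', a1, a2, a3, v, ε', hT', hv⟩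
    · exact Or.inl ⟨fun s' b1 b2 => h s' b1 b2.le, h s hs0 le_rfl⟩
    · exact Or.inr ⟨s', a1, a2, a3, ta_of_neg' hF hT' hv⟩

end PU
end H11ST
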