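import Pool.Agent.H11ST.St3
import Pool.Agent.Helper94.ST.Flux
open MeasureTheory Metric Set Filter Topology Real
open scoped ENNReal NNReal

/-!
# PU: the planar upper bound `N_2(t) ≤ C (1 + log (1 + log (1 / (1 - t))))`

Frame: orthonormal `τ ν`; the tangency point is `-ν`, the inward normal is `ν`; abscissa
`inner ℝ z τ`, height over the tangent line `1 + inner ℝ z ν`. `TA S τ ν y`: tripod with the arms
`τ` (0 degrees), `e2 τ ν` (120 degrees), `-e1 τ ν` (240 degrees). The mirror frame is `(-τ, ν)`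
(`e1 (-τ) ν = e2 τ ν`, `e2 (-τ) ν = e1 τ ν`), so `TA S (-τ) ν y` is a tripod with the arms `-τ`,
`e1 τ ν`, `-e2 τ ν`.
-/

namespace H11ST
namespace PU

/-- orthonormal frame of the plane -/
structure Fr (τ ν : E 2) : Prop where
  t1 : ‖τ‖ = 1
  n1 : ‖ν‖ = 1
  o : inner ℝ τ ν = (0 : ℝ)

/-- direction of 60 degrees -/
noncomputable def e1 (τ ν : E 2) : E 2 := (√3 / 2) • ν + (1 / 2 : ℝ) • τ
/-- direction of 120 degrees -/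
noncomputable def e2 (τ ν : E 2) : E 2 := (√3 / 2) • ν - (1 / 2 : ℝ) • τ

/-- tripod with the arms `τ`, `e2 τ ν`, `-e1 τ ν` -/
def TA (S : Set (E 2)) (τ ν y : E 2) : Prop :=
  ∃ u ε, Tri S y u ε ∧ u 0 = τ ∧ u 1 = e2 τ ν ∧ u 2 = -e1 τ ν

/-- region near the tangency point `-ν` -/
def InG (τ ν y : E 2) : Prop :=
  |inner ℝ y τ| ≤ 1 / 2 + 3 / 5 * (1 + inner ℝ y ν) ∧ 1 + inner ℝ y ν ≤ 1 / 2

/-- the open segment from `y` to `y + s • e` consists of line points -/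
def Ray (S : Set (E 2)) (y e : E 2) (s : ℝ) : Prop :=
  ∀ s' : ℝ, 0 < s' → s' < s → ∃ ε, Lin S (y + s' • e) e ε

/-- a locally minimal set in the unit disc and a level `ρ₀` whose points are line points -/
structure Base (A S : Set (E 2)) (ρ₀ : ℝ) (P : Finset (E 2)) : Prop where
  L : LocAdm A S 0 1
  cl : IsClosed A
  reg : ∀ z ∈ S ∩ ball 0 1, (∃ u ε, Lin S z u ε) ∨ ∃ u ε, Tri S z u ε
  r0 : 49 / 50 ≤ ρ₀
  r1 : ρ₀ < 1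
  mem : ∀ z, z ∈ P ↔ z ∈ S ∩ sphere 0 ρ₀
  lin : ∀ z ∈ P, ∃ u ε, Lin S z u ε

/-- (STEP) following an arm of a tripod: line points up to `s`, or the first tripod point, which is
of the mirrored type. By `follow` and `tri_finite` of `Helper94.ST.Flux` (take the first of the
finitely many tripod points on the segment); in the plane the arms of a tripod with the arm `w` are
`w` and its rotations by `±120` degrees. -/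
def ST_STEP : Prop := ∀ (S : Set (E 2)), IsClosed S →
  (∀ z ∈ S ∩ ball 0 1, (∃ u ε, Lin S z u ε) ∨ ∃ u ε, Tri S z u ε) →
  ∀ τ ν y : E 2, Fr τ ν → TA S τ ν y → ‖y‖ < 1 →
  (∀ s : ℝ, 0 < s → ‖y + s • τ‖ < 1 → Ray S y τ s ∧ (∃ ε, Lin S (y + s • τ) τ ε) ∨
    ∃ s' : ℝ, 0 < s' ∧ s' ≤ s ∧ Ray S y τ s' ∧ TA S (-τ) ν (y + s' • τ)) ∧
  (∀ s : ℝ, 0 < s → ‖y + s • e2 τ ν‖ < 1 →
    Ray S y (e2 τ ν) s ∧ (∃ ε, Lin S (y + s • e2 τ ν) (e2 τ ν) ε) ∨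
    ∃ s' : ℝ, 0 < s' ∧ s' ≤ s ∧ Ray S y (e2 τ ν) s' ∧ TA S (-τ) ν (y + s' • e2 τ ν))

/-- (GEO) plane geometry of the region: heights, and the direction `e2` leads down to the level -/
def ST_GEO : Prop := ∀ τ ν y : E 2, Fr τ ν → InG τ ν y → 49 / 50 ≤ ‖y‖ → ‖y‖ ≤ 1 →
  0 ≤ 1 + inner ℝ y ν ∧ 1 + inner ℝ y ν ≤ 29 / 100 ∧ inner ℝ y (e2 τ ν) ≤ -(1 / 4 : ℝ) ∧
  ∀ ρ₀, 49 / 50 ≤ ρ₀ → ρ₀ < ‖y‖ → ∃ s : ℝ, 0 < s ∧ s ≤ 1 / 5 ∧ ‖y + s • e2 τ ν‖ = ρ₀ ∧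
    ∀ s' : ℝ, 0 < s' → s' ≤ s → ‖y + s' • e2 τ ν‖ < ‖y‖ ∧ ρ₀ ≤ ‖y + s' • e2 τ ν‖ ∧
      (s' < s → ρ₀ < ‖y + s' • e2 τ ν‖) ∧ InG τ ν (y + s' • e2 τ ν) ∧
      (inner ℝ y τ ≤ 1 + inner ℝ y ν →
        inner ℝ (y + s' • e2 τ ν) τ ≤ 1 + inner ℝ (y + s' • e2 τ ν) ν) ∧
      (-inner ℝ y τ ≤ 1 + inner ℝ y ν →
        -inner ℝ (y + s' • e2 τ ν) τ ≤ 1 + inner ℝ (y + s' • e2 τ ν) ν)

/-- (UP) the upward path to the level, through edges of the directions `e1`, `e2`. Strong induction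
on the number of tripod points `v` with `‖v‖ < ‖y‖` (STEP, GEO; the mirror frame alternates) -/
def ST_UP : Prop := ∀ (A S : Set (E 2)) (ρ₀ : ℝ) (P : Finset (E 2)), Base A S ρ₀ P →
  ∀ τ ν y : E 2, Fr τ ν → TA S τ ν y → InG τ ν y → ρ₀ < ‖y‖ → ‖y‖ < 1 →
  ∃ z ∈ P, ∃ C : Set (E 2), IsPreconnected C ∧ C ⊆ S ∧ y ∈ C ∧ z ∈ C ∧
    (∀ v ∈ C, ¬ ∃ ε, Lin S v τ ε) ∧
    ((∃ ε, Lin S z (e1 τ ν) ε) ∨ ∃ ε, Lin S z (e2 τ ν) ε)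

/-- (EXCH) exchange: remove the segment `a b`, join `a` to `c` or `b` to `d`, where `c d` is a
segment of the rest. Topology: `T₀ = (S ∪ A) \ openSegment a b`; if neither `T₀ ∪ [a,c]` nor
`T₀ ∪ [b,d]` is connected, let `T₀ ∪ [a,c] = F₁ ⊔ F₂` with `a, c, d ∈ F₁`, then `b ∈ F₂` (else
`S ∪ A` is not connected), `T₀ ∪ [b,d] = G₁ ⊔ G₂` with `b, c, d ∈ G₁`, `a ∈ G₂`; `F₁ ∩ G₁ ∩ T₀` is
clopen in `T₀`, contains `c`, not `a`, `b`: contradiction. Then minimality. -/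
def ST_EXCH : Prop := ∀ (A S : Set (E 2)), LocAdm A S 0 1 → IsClosed A → ∀ a b c d : E 2, a ≠ b →
  a ∈ ball (0 : E 2) 1 → b ∈ ball (0 : E 2) 1 → c ∈ ball (0 : E 2) 1 → d ∈ ball (0 : E 2) 1 →
  segment ℝ a b ⊆ S →
  (∀ v ∈ openSegment ℝ a b, ∃ δ > 0, S ∩ ball v δ ⊆ segment ℝ a b) →
  segment ℝ c d ⊆ S → Disjoint (segment ℝ c d) (openSegment ℝ a b) →
  dist a b ≤ max (dist a c) (dist b d)

/-- (CUT) every open edge is a bridge (minimality), so edges joining the points of `P` by paths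
avoiding the other edges are linearly independent vectors `1_p - 1_q` in `ℝ^P`. For each `i`:
`(S ∪ A) \ openSegment (a i) (b i)` is not connected, `= F ⊔ G`, `a i ∈ F`, `b i ∈ G`; the functional
`1_F` vanishes on the vectors of the other edges and is `±1` on that of `i`. -/
def ST_CUT : Prop := ∀ (A S : Set (E 2)), LocAdm A S 0 1 → IsClosed A →
  ∀ (ι : Type) [Fintype ι] (a b : ι → E 2) (C D : ι → Set (E 2)) (P : Finset (E 2)),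
  (∀ i, a i ≠ b i) → (∀ i, a i ∈ ball (0 : E 2) 1) → (∀ i, b i ∈ ball (0 : E 2) 1) →
  (∀ i, segment ℝ (a i) (b i) ⊆ S) →
  (∀ i, ∀ v ∈ openSegment ℝ (a i) (b i), ∃ δ > 0, S ∩ ball v δ ⊆ segment ℝ (a i) (b i)) →
  (∀ i j, i ≠ j → Disjoint (openSegment ℝ (a i) (b i)) (openSegment ℝ (a j) (b j))) →
  (∀ i, IsPreconnected (C i) ∧ C i ⊆ S ∧ a i ∈ C i ∧ ∃ p ∈ P, p ∈ C i) →
  (∀ i, IsPreconnected (D i) ∧ D i ⊆ S ∧ b i ∈ D i ∧ ∃ p ∈ P, p ∈ D i) →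
  (∀ i j, Disjoint (C i) (openSegment ℝ (a j) (b j))) →
  (∀ i j, Disjoint (D i) (openSegment ℝ (a j) (b j))) →
  Fintype.card ι ≤ P.card

/-- (EXIT) two right-going rays of the same frame which start at abscissa `≤` height and leave the
disc of radius `ρ₁ = (1 + t) / 2`: remove from the lower one the part `[a, b]` below the upper one,
`b` on the sphere (EXCH with vertical joins) -/
def ST_EXIT : Prop := ∀ (A S : Set (E 2)) (ρ₀ : ℝ) (P : Finset (E 2)), Base A S ρ₀ P →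
  ∀ t : ℝ, ρ₀ < t → t < 1 → ∀ τ ν y₁ y₂ : E 2, Fr τ ν → TA S τ ν y₁ → TA S τ ν y₂ →
  ‖y₁‖ ≤ t → ‖y₂‖ ≤ t → inner ℝ y₁ τ ≤ 1 + inner ℝ y₁ ν → inner ℝ y₂ τ ≤ 1 + inner ℝ y₂ ν →
  1 + inner ℝ y₁ ν ≤ 1 / 40 →
  (∀ s : ℝ, 0 < s → ‖y₁ + s • τ‖ ≤ (1 + t) / 2 → ∃ ε, Lin S (y₁ + s • τ) τ ε) →
  (∀ s : ℝ, 0 < s → ‖y₂ + s • τ‖ ≤ (1 + t) / 2 → ∃ ε, Lin S (y₂ + s • τ) τ ε) →
  inner ℝ y₂ ν < inner ℝ y₁ ν → 1 + inner ℝ y₂ ν ≤ 5 * (1 + inner ℝ y₁ ν) ^ 2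

/-- (HGT) counting heights -/
def ST_HGT : Prop := ∀ (F : Finset ℝ) (δ : ℝ), 0 < δ → δ < 1 → (∀ x ∈ F, δ ≤ x ∧ x ≤ 1 / 40) →
  (∀ x ∈ F, ∀ y ∈ F, x < y → x ≤ 5 * y ^ 2) →
  (F.card : ℝ) ≤ 2 + 2 * Real.log (1 + Real.log (1 / δ))

/-- (FRM) every tripod near the circle has a frame; a direction belongs to at most 8 frames -/
def ST_FRM : Prop :=
  (∀ (S : Set (E 2)) (y : E 2) (u : Fin 3 → E 2) (ε : ℝ), Tri S y u ε → 49 / 50 ≤ ‖y‖ → ‖y‖ ≤ 1 →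
    ∃ τ ν, Fr τ ν ∧ TA S τ ν y ∧ InG τ ν y) ∧
  ∀ w : E 2, ∃ Φ : Finset (E 2 × E 2), Φ.card ≤ 8 ∧ ∀ τ ν, Fr τ ν →
    (w = e1 τ ν ∨ w = -e1 τ ν ∨ w = e2 τ ν ∨ w = -e2 τ ν) → (τ, ν) ∈ Φ

/-- (CNTA) internal right-going edges: at most `P.card` (UP for both ends, CUT) -/
def ST_CNTA : Prop := ∀ (A S : Set (E 2)) (ρ₀ : ℝ) (P : Finset (E 2)), Base A S ρ₀ P →
  ∀ τ ν : E 2, Fr τ ν → ∀ Y : Finset (E 2),
  (∀ y ∈ Y, TA S τ ν y ∧ InG τ ν y ∧ ‖y‖ < 1 ∧ inner ℝ y τ ≤ 1 + inner ℝ y ν ∧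
    ∃ s : ℝ, 0 < s ∧ Ray S y τ s ∧ TA S (-τ) ν (y + s • τ) ∧ ‖y + s • τ‖ < 1 ∧
      ∀ s' : ℝ, 0 ≤ s' → s' ≤ s → ρ₀ < ‖y + s' • τ‖) → Y.card ≤ P.card

/-- (CNTF) points of one frame: `TA` points in the region with abscissa at most height and those
of the mirrored type; STEP, GEO, EXIT, HGT, CNTA. `B ≤ A + P.card` by the steps in the direction
`e1`; the `A` points: internal (CNTA), meeting the level (`≤ P.card`), exits -/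
def ST_CNTF : Prop := ∀ (A S : Set (E 2)) (ρ₀ : ℝ) (P : Finset (E 2)), Base A S ρ₀ P →
  ∀ t : ℝ, ρ₀ < t → t < 1 → ∀ τ ν : E 2, Fr τ ν → ∀ Y : Finset (E 2),
  (∀ y ∈ Y, (TA S τ ν y ∨ TA S (-τ) ν y) ∧ InG τ ν y ∧ ρ₀ < ‖y‖ ∧ ‖y‖ ≤ t ∧
    inner ℝ y τ ≤ 1 + inner ℝ y ν) →
  (Y.card : ℝ) ≤ 5 * P.card + 2 * (2 + 2 * Real.log (1 + Real.log (1 / (1 - t))))

/-- (LEV) the level: at most `M₀` points (len_circle, eilenberg, finitely many tripod points) -/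
def ST_LEV : Prop := ∃ M₀ : ℕ, ∀ (A S : Set (E 2)), LocAdm A S 0 1 → IsClosed A →
  (∀ z ∈ S ∩ ball 0 1, (∃ u ε, Lin S z u ε) ∨ ∃ u ε, Tri S z u ε) →
  ∃ (ρ₀ : ℝ) (P : Finset (E 2)), Base A S ρ₀ P ∧ P.card ≤ M₀

/-- (SCL) scaling to the unit disc -/
def ST_SCL : Prop := ∀ (A S : Set (E 2)) (x : E 2) (r : ℝ), LocAdm A S x r → IsClosed A →
  (∀ z ∈ S ∩ ball x r, (∃ u ε, Lin S z u ε) ∨ ∃ u ε, Tri S z u ε) →
  ∀ (t : ℝ) (Y : Finset (E 2)), (∀ y ∈ Y, y ∈ ball x (t * r) ∧ ∃ u ε, Tri S y u ε) →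
  ∃ (A' S' : Set (E 2)) (Y' : Finset (E 2)), LocAdm A' S' 0 1 ∧ IsClosed A' ∧
    (∀ z ∈ S' ∩ ball 0 1, (∃ u ε, Lin S' z u ε) ∨ ∃ u ε, Tri S' z u ε) ∧ Y'.card = Y.card ∧
    ∀ y ∈ Y', y ∈ ball (0 : E 2) t ∧ ∃ u ε, Tri S' y u ε

/-- (UNIT) the bound in the unit disc: LEV, FRM, UP, CNTF, and `LocAdm.sphere_count` for the points
in the closed disc of radius `ρ₀` -/
def ST_UNIT : Prop := ∃ C : ℝ, 0 < C ∧ ∀ (A S : Set (E 2)), LocAdm A S 0 1 → IsClosed A →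
  (∀ z ∈ S ∩ ball 0 1, (∃ u ε, Lin S z u ε) ∨ ∃ u ε, Tri S z u ε) →
  ∀ t : ℝ, 0 < t → t < 1 → ∀ Y : Finset (E 2), (∀ y ∈ Y, y ∈ ball (0 : E 2) t ∧ ∃ u ε, Tri S y u ε) →
  (Y.card : ℝ) ≤ C * (1 + Real.log (1 + Real.log (1 / (1 - t))))

/-- (FIN) the final theorem: SCL, UNIT, `reg`, `Nloc_le` as in `Helper49.ST.Upper` -/
def ST_FIN : Prop := ∃ C : ℝ, 0 < C ∧ ∀ t : ℝ, 0 < t → t < 1 → ∃ n : ℕ, Nloc 2 t = n ∧
  (n : ℝ) ≤ C * (1 + Real.log (1 + Real.log (1 / (1 - t))))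

end PU
end H11ST
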