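import Pool.Agent.Helper94.PU.Pl
open MeasureTheory Metric Set Filter Topology Real
open scoped ENNReal NNReal

/-!
Row CNTF of project PU: the number of tripod points which belong to one frame.
-/

namespace H11ST
namespace PU

theorem ray_inj {S : Set (E 2)} {e y₁ y₂ : E 2} {s₁ s₂ : ℝ} (h1 : ∀ ε u, ¬ Lin S y₁ u ε)
    (h2 : ∀ ε u, ¬ Lin S y₂ u ε) (hs1 : 0 < s₁) (hs2 : 0 < s₂) (hr1 : Ray S y₁ e s₁)
    (hr2 : Ray S y₂ e s₂) (heq : y₁ + s₁ • e = y₂ + s₂ • e) : y₁ = y₂ := by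
  rcases lt_trichotomy s₁ s₂ with h | h | h
  · exfalso
    obtain ⟨ε, hL⟩ := hr2 (s₂ - s₁) (by linarith) (by linarith)
    have e1 : y₂ + (s₂ - s₁) • e = y₁ := by
      rw [sub_smul, ← add_sub_assoc, ← heq]; abel
    rw [e1] at hL
    exact h1 _ _ hL
  · rw [h] at heq
    exact add_right_cancel heq
  · exfalso
    obtain ⟨ε, hL⟩ := hr1 (s₁ - s₂) (by linarith) (by linarith)
    have e1 : y₁ + (s₁ - s₂) • e = y₂ := by
      rw [sub_smul, ← add_sub_assoc, heq]; abel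
    rw [e1] at hL
    exact h2 _ _ hL

/-- counting with rays into a finite set -/
theorem ray_card {S : Set (E 2)} {e : E 2} (Y Q : Finset (E 2)) (hY : ∀ y ∈ Y, ∀ ε u, ¬ Lin S y u ε)
    (h : ∀ y ∈ Y, ∃ s, 0 < s ∧ Ray S y e s ∧ y + s • e ∈ Q) : Y.card ≤ Q.card := by
  choose! s hs hr hq using h
  refine Finset.card_le_card_of_injOn (fun y => y + s y • e) (fun y hy => hq y hy) ?_
  intro a ha b hb hab
  exact ray_inj (hY a ha) (hY b hb) (hs a ha) (hs b hb) (hr a ha) (hr b hb) hab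

theorem cont_ray (y e : E 2) : Continuous fun s : ℝ => ‖y + s • e‖ := by fun_prop

/-- the first meeting with a lower level -/
theorem level {y e : E 2} {ρ q : ℝ} (hy : ρ < ‖y‖) (hq0 : 0 ≤ q) (hq : ‖y + q • e‖ ≤ ρ) :
    ∃ q₀, 0 < q₀ ∧ q₀ ≤ q ∧ ‖y + q₀ • e‖ = ρ := by
  have hc : ContinuousOn (fun s : ℝ => ‖y + s • e‖) (Icc 0 q) := (cont_ray y e).continuousOn
  have h1 : ρ ∈ Icc (‖y + q • e‖) (‖y + (0 : ℝ) • e‖) := by
    rw [zero_smul, add_zero]; exact ⟨hq, hy.le⟩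
  obtain ⟨q₀, ⟨h2, h3⟩, h4⟩ := intermediate_value_Icc' hq0 hc h1
  refine ⟨q₀, ?_, h3, h4⟩
  rcases eq_or_lt_of_le h2 with h5 | h5
  · exfalso
    rw [← h5] at h4
    simp only [zero_smul, add_zero] at h4
    linarith
  · exact h5

theorem cntf (hSTEP : ST_STEP) (hGEO : ST_GEO) (hEXIT : ST_EXIT) (hHGT : ST_HGT)
    (hCNTA : ST_CNTA) : ST_CNTF := by
  classical
  intro A S ρ₀ P hB t ht0 ht1 τ ν hF Y hY
  have hS : IsClosed S := hB.L.hS
  have hPS : ∀ z ∈ P, z ∈ S ∧ ‖z‖ = ρ₀ := by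
    intro z hz
    have := (hB.mem z).1 hz
    exact ⟨this.1, by simpa using this.2⟩
  have hPmem : ∀ z, z ∈ S → ‖z‖ = ρ₀ → z ∈ P := by
    intro z h1 h2
    exact (hB.mem z).2 ⟨h1, by simpa using h2⟩
  -- the finite set of type A points
  set FA : Set (E 2) := {y | TA S τ ν y ∧ InG τ ν y ∧ ρ₀ < ‖y‖ ∧ ‖y‖ ≤ t ∧
    inner ℝ y τ ≤ 1 + inner ℝ y ν} with hFA
  have hFAfin : FA.Finite := by
    refine (tri_finite hS (x := (0 : E 2)) ht1 hB.reg).subset ?_
    rintro y ⟨⟨u, ε, hT, -⟩, -, -, h4, -⟩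
    refine ⟨⟨?_, ?_⟩, u, ε, hT⟩
    · have := hT.mem (i := 0) (s := 0) le_rfl hT.pos
      simpa using this
    · rw [mem_closedBall, dist_zero_right]; exact h4
  set F := hFAfin.toFinset with hFdef
  have hFm : ∀ y, y ∈ F ↔ y ∈ FA := fun y => hFAfin.mem_toFinset
  set m : ℝ := 2 + 2 * Real.log (1 + Real.log (1 / (1 - t))) with hm
  -- the type B points
  have hBcard : ∀ YB : Finset (E 2), (∀ y ∈ YB, TA S (-τ) ν y ∧ InG τ ν y ∧ ρ₀ < ‖y‖ ∧ ‖y‖ ≤ t ∧
      inner ℝ y τ ≤ 1 + inner ℝ y ν) → YB.card ≤ F.card + P.card := by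
    intro YB hYB
    refine (ray_card (S := S) (e := e2 (-τ) ν) YB (F ∪ P) (fun y hy ε u => (hYB y hy).1.not_lin)
      ?_).trans (Finset.card_union_le _ _)
    intro y hy
    obtain ⟨h1, h2, h3, h4, h5⟩ := hYB y hy
    have hy1 : ‖y‖ < 1 := h4.trans_lt ht1
    obtain ⟨-, -, -, hg⟩ := hGEO (-τ) ν y hF.neg h2.neg (hB.r0.trans h3.le) hy1.le
    obtain ⟨s, hs0, -, hs2, hs3⟩ := hg ρ₀ hB.r0 h3
    have hs1 : ‖y + s • e2 (-τ) ν‖ < 1 := by rw [hs2]; exact hB.r1
    rcases (hSTEP S hS hB.reg (-τ) ν y hF.neg h1 hy1).2 s hs0 hs1 with ⟨a1, ε, a2⟩ |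
      ⟨s', b1, b2, b3, b4⟩
    · exact ⟨s, hs0, a1, Finset.mem_union_right _ (hPmem _ a2.z_mem hs2)⟩
    · refine ⟨s', b1, b3, ?_⟩
      obtain ⟨c1, c2, c3, c4, -, c6⟩ := hs3 s' b1 b2
      rw [neg_neg] at b4
      rcases eq_or_lt_of_le b2 with b5 | b5
      · refine Finset.mem_union_right _ (hPmem _ ?_ (by rw [b5]; exact hs2))
        obtain ⟨u, ε, hT⟩ := b4.tri
        have := hT.mem (i := 0) (s := 0) le_rfl hT.pos
        simpa using this
      · refine Finset.mem_union_left _ ((hFm _).2 ⟨b4, ?_, c3 b5, by linarith, ?_⟩)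
        · have := c4.neg
          rwa [neg_neg] at this
        · have h6 := c6 (by rw [inner_neg_right, neg_neg]; exact h5)
          rw [inner_neg_right, neg_neg] at h6
          exact h6
  -- classification of the type A points
  have hρ : t < (1 + t) / 2 := by linarith
  have hρ1 : (1 + t) / 2 < 1 := by linarith
  have hcls : ∀ y ∈ F, (∃ q, 0 < q ∧ Ray S y τ q ∧ y + q • τ ∈ P) ∨
      (∃ s, 0 < s ∧ Ray S y τ s ∧ TA S (-τ) ν (y + s • τ) ∧ ‖y + s • τ‖ < 1 ∧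
        ∀ s', 0 ≤ s' → s' ≤ s → ρ₀ < ‖y + s' • τ‖) ∨
      ((∀ s : ℝ, 0 < s → ‖y + s • τ‖ ≤ (1 + t) / 2 → ∃ ε, Lin S (y + s • τ) τ ε) ∧
        1 + inner ℝ y ν ≤ (1 / 40 : ℝ)) := by
    intro y hyF
    obtain ⟨h1, h2, h3, h4, h5⟩ := (hFm y).1 hyF
    have hy1 : ‖y‖ < 1 := h4.trans_lt ht1
    set X : ℝ := inner ℝ y τ with hX
    set N : ℝ := inner ℝ y ν with hN
    have hsq : ∀ q : ℝ, ‖y + q • τ‖ ^ 2 = (X + q) ^ 2 + N ^ 2 := by
      intro q
      rw [hF.sq (y + q • τ), inner_add_left, inner_add_left, inner_smul_left, inner_smul_left, hF.tt,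
        hF.o]
      simp [hX, hN]
    have hy2 : ‖y‖ ^ 2 = X ^ 2 + N ^ 2 := hF.sq y
    set ρ₁ : ℝ := (1 + t) / 2 with hρ₁
    have hyn := norm_nonneg y
    have hpos : 0 < X ^ 2 + (ρ₁ ^ 2 - ‖y‖ ^ 2) := by
      have : ‖y‖ ^ 2 < ρ₁ ^ 2 := by nlinarith
      nlinarith [sq_nonneg X]
    set w := √(X ^ 2 + (ρ₁ ^ 2 - ‖y‖ ^ 2)) with hw
    have hw2 : w ^ 2 = X ^ 2 + (ρ₁ ^ 2 - ‖y‖ ^ 2) := Real.sq_sqrt hpos.le
    have hw0 : 0 < w := Real.sqrt_pos.2 hpos
    have hwX : X < w := by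
      have h6 : X ^ 2 < w ^ 2 := by rw [hw2]; nlinarith
      exact lt_of_pow_lt_pow_left₀ 2 hw0.le h6
    set s := w - X with hs
    have hs0 : 0 < s := by linarith
    have hsn : ‖y + s • τ‖ = ρ₁ := by
      have h6 : ‖y + s • τ‖ ^ 2 = ρ₁ ^ 2 := by
        rw [hsq, hs]
        have : X + (w - X) = w := by ring
        rw [this, hw2, hy2]; ring
      have h7 : 0 ≤ ρ₁ := by linarith
      have h8 := norm_nonneg (y + s • τ)
      nlinarith
    have hbeyond : ∀ q, ‖y + q • τ‖ ≤ ρ₁ → q ≤ s := by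
      intro q hq
      by_contra hcon
      push Not at hcon
      have h6 : w < X + q := by linarith
      have h7 : ‖y + q • τ‖ ^ 2 ≤ ρ₁ ^ 2 := by
        have := norm_nonneg (y + q • τ)
        nlinarith
      rw [hsq] at h7
      nlinarith
    rcases (hSTEP S hS hB.reg τ ν y hF h1 hy1).1 s hs0 (by rw [hsn]; exact hρ1) with
      ⟨a1, ε, a2⟩ | ⟨s', b1, b2, b3, b4⟩
    · have hlin : ∀ q, 0 < q → q ≤ s → ∃ ε, Lin S (y + q • τ) τ ε := by
        intro q hq0 hq1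
        rcases eq_or_lt_of_le hq1 with h6 | h6
        · rw [h6]; exact ⟨ε, a2⟩
        · exact a1 q hq0 h6
      by_cases hex : ∃ q, 0 ≤ q ∧ q ≤ s ∧ ‖y + q • τ‖ ≤ ρ₀
      · left
        obtain ⟨q, hq0, hq1, hq2⟩ := hex
        obtain ⟨q₀, c1, c2, c3⟩ := level h3 hq0 hq2
        refine ⟨q₀, c1, fun s' d1 d2 => a1 s' d1 (by linarith), ?_⟩
        obtain ⟨ε', hL⟩ := hlin q₀ c1 (c2.trans hq1)
        exact hPmem _ hL.z_mem c3
      · right; right
        push Not at hex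
        refine ⟨fun q hq0 hq1 => hlin q hq0 (hbeyond q hq1), ?_⟩
        have hN1 : 1 + N ≤ 1 / 2 := h2.2
        have hr0 := hB.r0
        rcases le_or_gt X 0 with hX0 | hX0
        · have h6 : ‖y + (-X) • τ‖ ^ 2 = N ^ 2 := by rw [hsq]; ring
          have h7 : -X ≤ s := by rw [hs]; linarith
          have h8 := hex (-X) (by linarith) h7
          have h9 : ρ₀ ^ 2 < N ^ 2 := by rw [← h6]; nlinarith
          have h10 : ρ₀ ^ 2 < (-N) ^ 2 := by rw [neg_sq]; exact h9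
          have h11 : ρ₀ < -N := lt_of_pow_lt_pow_left₀ 2 (by linarith) h10
          linarith
        · have h6 : ρ₀ ^ 2 < X ^ 2 + N ^ 2 := by rw [← hy2]; nlinarith
          by_contra hcon
          push Not at hcon
          have h7 : X ≤ 1 + N := h5
          nlinarith
    · by_cases hex : ∃ q, 0 ≤ q ∧ q ≤ s' ∧ ‖y + q • τ‖ ≤ ρ₀
      · left
        obtain ⟨q, hq0, hq1, hq2⟩ := hex
        obtain ⟨q₀, c1, c2, c3⟩ := level h3 hq0 hq2
        refine ⟨q₀, c1, fun s'' d1 d2 => b3 s'' d1 (by linarith), ?_⟩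
        refine hPmem _ ?_ c3
        rcases eq_or_lt_of_le (c2.trans hq1) with h6 | h6
        · rw [h6]
          obtain ⟨u, ε, hT⟩ := b4.tri
          have := hT.mem (i := 0) (s := 0) le_rfl hT.pos
          simpa using this
        · obtain ⟨ε', hL⟩ := b3 q₀ c1 h6
          exact hL.z_mem
      · right; left
        push Not at hex
        refine ⟨s', b1, b3, b4, ?_, hex⟩
        -- the norm at `s'` is at most `ρ₁`
        have h6 : ‖y + s' • τ‖ ^ 2 ≤ ρ₁ ^ 2 := by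
          rw [hsq]
          have h7 : X + s' ≤ w := by linarith
          rcases le_or_gt 0 (X + s') with h8 | h8
          · nlinarith [hw2, hy2]
          · have h9 : (X + s') ^ 2 ≤ X ^ 2 := by nlinarith
            nlinarith
        have h7 := norm_nonneg (y + s' • τ)
        have h8 : ‖y + s' • τ‖ ≤ ρ₁ := by
          have h9 : 0 ≤ ρ₁ := by linarith
          exact le_of_sq_le_sq h6 h9
        linarith
  -- the three parts
  set FL := F.filter (fun y => ∃ q, 0 < q ∧ Ray S y τ q ∧ y + q • τ ∈ P) with hFL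
  set FI := F.filter (fun y => ∃ s, 0 < s ∧ Ray S y τ s ∧ TA S (-τ) ν (y + s • τ) ∧
    ‖y + s • τ‖ < 1 ∧ ∀ s', 0 ≤ s' → s' ≤ s → ρ₀ < ‖y + s' • τ‖) with hFI
  set FX := F.filter (fun y => (∀ s : ℝ, 0 < s → ‖y + s • τ‖ ≤ (1 + t) / 2 →
    ∃ ε, Lin S (y + s • τ) τ ε) ∧ 1 + inner ℝ y ν ≤ (1 / 40 : ℝ)) with hFX
  have hcov : F ⊆ FL ∪ (FI ∪ FX) := by
    intro y hy
    rcases hcls y hy with h | h | h
    · exact Finset.mem_union_left _ (Finset.mem_filter.2 ⟨hy, h⟩)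
    · exact Finset.mem_union_right _ (Finset.mem_union_left _ (Finset.mem_filter.2 ⟨hy, h⟩))
    · exact Finset.mem_union_right _ (Finset.mem_union_right _ (Finset.mem_filter.2 ⟨hy, h⟩))
  have hcL : FL.card ≤ P.card := by
    refine ray_card (S := S) (e := τ) FL P (fun y hy ε u => ?_) fun y hy => (Finset.mem_filter.1 hy).2
    exact ((hFm y).1 (Finset.mem_filter.1 hy).1).1.not_lin
  have hcI : FI.card ≤ P.card := by
    refine hCNTA A S ρ₀ P hB τ ν hF FI fun y hy => ?_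
    obtain ⟨h1, h2⟩ := Finset.mem_filter.1 hy
    obtain ⟨k1, k2, k3, k4, k5⟩ := (hFm y).1 h1
    exact ⟨k1, k2, k4.trans_lt ht1, k5, h2⟩
  have hcX : (FX.card : ℝ) ≤ m := by
    have hinj : Set.InjOn (fun y : E 2 => 1 + inner ℝ y ν) (FX : Set (E 2)) := by
      -- same height: one point lies on the ray of the other
      have key : ∀ y₁ ∈ FX, ∀ y₂ ∈ FX, inner ℝ y₁ ν = (inner ℝ y₂ ν : ℝ) →
          ¬ (inner ℝ y₁ τ < (inner ℝ y₂ τ : ℝ)) := by
        intro y₁ h1 y₂ h2 heq hlt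
        obtain ⟨-, a2, -⟩ := Finset.mem_filter.1 h1
        obtain ⟨b1, -, -⟩ := Finset.mem_filter.1 h2
        obtain ⟨k1, k2, k3, k4, k5⟩ := (hFm y₂).1 b1
        have e1 : y₁ + (inner ℝ y₂ τ - inner ℝ y₁ τ : ℝ) • τ = y₂ := by
          refine hF.inj ?_ ?_
          · rw [inner_add_left, inner_smul_left, hF.tt]
            simp
          · rw [inner_add_left, inner_smul_left, hF.o]
            simp [heq]
        obtain ⟨ε, hL⟩ := a2 (inner ℝ y₂ τ - inner ℝ y₁ τ) (by linarith)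
          (by rw [e1]; linarith)
        rw [e1] at hL
        exact k1.not_lin hL
      intro y₁ h1 y₂ h2 heq
      have heq' : inner ℝ y₁ ν = (inner ℝ y₂ ν : ℝ) := by
        have : 1 + inner ℝ y₁ ν = (1 + inner ℝ y₂ ν : ℝ) := heq
        linarith
      have n1 := key y₁ h1 y₂ h2 heq'
      have n2 := key y₂ h2 y₁ h1 heq'.symm
      exact hF.inj (le_antisymm (not_lt.1 n2) (not_lt.1 n1)) heq'
    have h1 := hHGT (FX.image fun y : E 2 => 1 + inner ℝ y ν) (1 - t) (by linarith)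
      (by
        have : 0 < t := by
          have := hB.r0
          linarith
        linarith)
      (by
        intro x hx
        obtain ⟨y, hy, rfl⟩ := Finset.mem_image.1 hx
        obtain ⟨a1, -, a3⟩ := Finset.mem_filter.1 hy
        obtain ⟨k1, k2, k3, k4, k5⟩ := (hFm y).1 a1
        refine ⟨?_, a3⟩
        have h2 := abs_real_inner_le_norm y ν
        rw [hF.n1, mul_one] at h2
        have h3 := (abs_le.1 h2).1
        linarith)
      (by
        intro x hx x' hx' hlt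
        obtain ⟨y₂, hy₂, rfl⟩ := Finset.mem_image.1 hx
        obtain ⟨y₁, hy₁, rfl⟩ := Finset.mem_image.1 hx'
        obtain ⟨a1, a2, a3⟩ := Finset.mem_filter.1 hy₁
        obtain ⟨b1, b2, b3⟩ := Finset.mem_filter.1 hy₂
        obtain ⟨k1, k2, k3, k4, k5⟩ := (hFm y₁).1 a1
        obtain ⟨l1, l2, l3, l4, l5⟩ := (hFm y₂).1 b1
        exact hEXIT A S ρ₀ P hB t ht0 ht1 τ ν y₁ y₂ hF k1 l1 k4 l4 k5 l5 a3 a2 b2 (by linarith))
    rw [Finset.card_image_of_injOn hinj] at h1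
    exact h1
  have hcF : (F.card : ℝ) ≤ 2 * P.card + m := by
    have h1 : F.card ≤ FL.card + (FI.card + FX.card) :=
      (Finset.card_le_card hcov).trans ((Finset.card_union_le _ _).trans
        (Nat.add_le_add_left (Finset.card_union_le _ _) _))
    have h2 : (F.card : ℝ) ≤ FL.card + (FI.card + FX.card) := by exact_mod_cast h1
    have h3 : (FL.card : ℝ) ≤ P.card := by exact_mod_cast hcL
    have h4 : (FI.card : ℝ) ≤ P.card := by exact_mod_cast hcI
    linarith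
  -- conclusion
  set YB := Y.filter (fun y => TA S (-τ) ν y) with hYBdef
  have hYcov : Y ⊆ F ∪ YB := by
    intro y hy
    obtain ⟨h1, h2, h3, h4, h5⟩ := hY y hy
    rcases h1 with h1 | h1
    · exact Finset.mem_union_left _ ((hFm y).2 ⟨h1, h2, h3, h4, h5⟩)
    · exact Finset.mem_union_right _ (Finset.mem_filter.2 ⟨hy, h1⟩)
  have hYBc : YB.card ≤ F.card + P.card := hBcard YB fun y hy => by
    obtain ⟨h0, h1⟩ := Finset.mem_filter.1 hy
    obtain ⟨-, h2, h3, h4, h5⟩ := hY y h0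
    exact ⟨h1, h2, h3, h4, h5⟩
  have h1 : Y.card ≤ F.card + YB.card :=
    (Finset.card_le_card hYcov).trans (Finset.card_union_le _ _)
  have h2 : (Y.card : ℝ) ≤ F.card + YB.card := by exact_mod_cast h1
  have h3 : (YB.card : ℝ) ≤ F.card + P.card := by exact_mod_cast hYBc
  linarith

end PU
end H11ST
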