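import Pool.Agent.Helper94.PU.Step
import Pool.Agent.Helper94.PU.Cntf
import Pool.Agent.Helper27.PU.GEO
import Pool.Agent.Helper33.PU.FRM
import Pool.Agent.Helper33.PU.LEV
import Pool.Agent.Helper33.PU.UNIT
import Pool.Agent.Helper33.PU.FIN
import Pool.Agent.Helper35.PU.HGT
import Pool.Agent.Helper49.PU.CUT
import Pool.Agent.Helper72.PU.CNTA
import Pool.Agent.Helper73.PU.UP
import Pool.Agent.Helper80.PU.Exit
import Pool.Agent.Helper91.PU.SCL
import Pool.Agent.Helper95.PU.EXCH

/-!
Project PU, assembled: in the plane at most `C (1 + log (1 + log (1 / (1 - t))))` branching points.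
-/

namespace H11ST
namespace PU

theorem plane_upper : ST_FIN :=
  have hUP : ST_UP := up step geo
  fin scl (unit lev frm hUP (cntf step geo (exit exch) st_HGT (cnta hUP cut)))

end PU
end H11ST
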