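import Pool.Agent.Helper94.PU.Sheet
open MeasureTheory Metric Set Filter Topology Real
open scoped ENNReal NNReal

/-!
Plane lemmas for project PU: frames, arms.
-/

namespace H11ST
namespace PU

theorem s3 : √3 * √3 = (3 : ℝ) := Real.mul_self_sqrt (by norm_num)

theorem inner2 (a b : E 2) : inner ℝ a b = a 0 * b 0 + a 1 * b 1 := by
  rw [PiLp.inner_apply, Fin.sum_univ_two]
  simp [mul_comm]

theorem norm2 (a : E 2) : ‖a‖ ^ 2 = a 0 ^ 2 + a 1 ^ 2 := by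
  rw [← real_inner_self_eq_norm_sq, inner2]
  ring

theorem ext2 {a b : E 2} (h0 : a 0 = b 0) (h1 : a 1 = b 1) : a = b := by
  ext i
  fin_cases i
  · exact h0
  · exact h1

theorem Fr.neg {τ ν : E 2} (h : Fr τ ν) : Fr (-τ) ν :=
  ⟨by rw [norm_neg, h.t1], h.n1, by rw [inner_neg_left, h.o, neg_zero]⟩

theorem e1_neg (τ ν : E 2) : e1 (-τ) ν = e2 τ ν := by
  rw [e1, e2, smul_neg, sub_eq_add_neg]

theorem e2_neg (τ ν : E 2) : e2 (-τ) ν = e1 τ ν := by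
  rw [e1, e2, smul_neg, sub_neg_eq_add]

/-- decomposition in the frame -/
theorem Fr.dec {τ ν : E 2} (h : Fr τ ν) (v : E 2) : v = (inner ℝ v τ) • τ + (inner ℝ v ν) • ν := by
  have h1 := norm2 τ
  have h2 := norm2 ν
  have h3 := h.o
  rw [h.t1] at h1
  rw [h.n1] at h2
  rw [inner2] at h3
  rw [inner2, inner2]
  have hdet : (τ 0 * ν 1 - τ 1 * ν 0) ^ 2 = 1 := by
    have : (τ 0 * ν 1 - τ 1 * ν 0) ^ 2 =
      (τ 0 ^ 2 + τ 1 ^ 2) * (ν 0 ^ 2 + ν 1 ^ 2) - (τ 0 * ν 0 + τ 1 * ν 1) ^ 2 := by ring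
    rw [this, ← h1, ← h2, h3]
    norm_num
  have hne : τ 0 * ν 1 - τ 1 * ν 0 ≠ 0 := by
    intro h0
    rw [h0] at hdet
    norm_num at hdet
  -- the difference is orthogonal to both
  set w0 : ℝ := v 0 - ((v 0 * τ 0 + v 1 * τ 1) * τ 0 + (v 0 * ν 0 + v 1 * ν 1) * ν 0) with hw0
  set w1 : ℝ := v 1 - ((v 0 * τ 0 + v 1 * τ 1) * τ 1 + (v 0 * ν 0 + v 1 * ν 1) * ν 1) with hw1
  have ht : w0 * τ 0 + w1 * τ 1 = 0 := by
    have : w0 * τ 0 + w1 * τ 1 = (v 0 * τ 0 + v 1 * τ 1) * (1 - (τ 0 ^ 2 + τ 1 ^ 2)) -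
      (v 0 * ν 0 + v 1 * ν 1) * (τ 0 * ν 0 + τ 1 * ν 1) := by rw [hw0, hw1]; ring
    rw [this, ← h1, h3]
    norm_num
  have hn : w0 * ν 0 + w1 * ν 1 = 0 := by
    have : w0 * ν 0 + w1 * ν 1 = (v 0 * ν 0 + v 1 * ν 1) * (1 - (ν 0 ^ 2 + ν 1 ^ 2)) -
      (v 0 * τ 0 + v 1 * τ 1) * (τ 0 * ν 0 + τ 1 * ν 1) := by rw [hw0, hw1]; ring
    rw [this, ← h2, h3]
    norm_num
  have e0 : w0 * (τ 0 * ν 1 - τ 1 * ν 0) = 0 := by
    have : w0 * (τ 0 * ν 1 - τ 1 * ν 0) = (w0 * τ 0 + w1 * τ 1) * ν 1 -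
      (w0 * ν 0 + w1 * ν 1) * τ 1 := by ring
    rw [this, ht, hn]; ring
  have e1 : w1 * (τ 0 * ν 1 - τ 1 * ν 0) = 0 := by
    have : w1 * (τ 0 * ν 1 - τ 1 * ν 0) = (w0 * ν 0 + w1 * ν 1) * τ 0 -
      (w0 * τ 0 + w1 * τ 1) * ν 0 := by ring
    rw [this, ht, hn]; ring
  have z0 : w0 = 0 := (mul_eq_zero.1 e0).resolve_right hne
  have z1 : w1 = 0 := (mul_eq_zero.1 e1).resolve_right hne
  apply ext2
  · simp only [PiLp.add_apply, PiLp.smul_apply, smul_eq_mul]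
    linarith
  · simp only [PiLp.add_apply, PiLp.smul_apply, smul_eq_mul]
    linarith

theorem Fr.inj {τ ν : E 2} (h : Fr τ ν) {v w : E 2} (h1 : inner ℝ v τ = (inner ℝ w τ : ℝ))
    (h2 : inner ℝ v ν = (inner ℝ w ν : ℝ)) : v = w := by
  rw [h.dec v, h.dec w, h1, h2]

theorem Fr.o' {τ ν : E 2} (h : Fr τ ν) : inner ℝ ν τ = (0 : ℝ) := by
  rw [real_inner_comm]; exact h.o

theorem Fr.tt {τ ν : E 2} (h : Fr τ ν) : inner ℝ τ τ = (1 : ℝ) := by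
  rw [real_inner_self_eq_norm_sq, h.t1]; norm_num

theorem Fr.nn {τ ν : E 2} (h : Fr τ ν) : inner ℝ ν ν = (1 : ℝ) := by
  rw [real_inner_self_eq_norm_sq, h.n1]; norm_num

theorem Fr.sq {τ ν : E 2} (h : Fr τ ν) (v : E 2) :
    ‖v‖ ^ 2 = (inner ℝ v τ) ^ 2 + (inner ℝ v ν) ^ 2 := by
  conv_lhs => rw [← real_inner_self_eq_norm_sq, h.dec v]
  simp only [inner_add_left, inner_add_right, inner_smul_left, inner_smul_right, h.tt, h.nn, h.o,
    h.o', conj_trivial]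
  ring

theorem Fr.in2 {τ ν : E 2} (h : Fr τ ν) (v w : E 2) :
    inner ℝ v w = (inner ℝ v τ) * (inner ℝ w τ) + (inner ℝ v ν) * (inner ℝ w ν : ℝ) := by
  conv_lhs => rw [h.dec v, h.dec w]
  simp only [inner_add_left, inner_add_right, inner_smul_left, inner_smul_right, h.tt, h.nn, h.o,
    h.o', conj_trivial]
  ring

theorem Fr.e1t {τ ν : E 2} (h : Fr τ ν) : inner ℝ (e1 τ ν) τ = (1 / 2 : ℝ) := by
  rw [e1, inner_add_left, inner_smul_left, inner_smul_left, h.tt, h.o']; simp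

theorem Fr.e1n {τ ν : E 2} (h : Fr τ ν) : inner ℝ (e1 τ ν) ν = (√3 / 2 : ℝ) := by
  rw [e1, inner_add_left, inner_smul_left, inner_smul_left, h.nn, h.o]; simp

theorem Fr.e2t {τ ν : E 2} (h : Fr τ ν) : inner ℝ (e2 τ ν) τ = -(1 / 2 : ℝ) := by
  rw [e2, inner_sub_left, inner_smul_left, inner_smul_left, h.tt, h.o']; simp

theorem Fr.e2n {τ ν : E 2} (h : Fr τ ν) : inner ℝ (e2 τ ν) ν = (√3 / 2 : ℝ) := by
  rw [e2, inner_sub_left, inner_smul_left, inner_smul_left, h.nn, h.o]; simp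

theorem Fr.e1_unit {τ ν : E 2} (h : Fr τ ν) : ‖e1 τ ν‖ = 1 := by
  have h1 := h.sq (e1 τ ν)
  rw [h.e1t, h.e1n] at h1
  have h2 : ‖e1 τ ν‖ ^ 2 = 1 := by rw [h1]; nlinarith [s3]
  have h3 := norm_nonneg (e1 τ ν)
  nlinarith

theorem Fr.e2_unit {τ ν : E 2} (h : Fr τ ν) : ‖e2 τ ν‖ = 1 := by
  rw [← e1_neg]; exact h.neg.e1_unit

theorem InG.neg {τ ν y : E 2} (h : InG τ ν y) : InG (-τ) ν y := by
  refine ⟨?_, h.2⟩
  rw [inner_neg_right, abs_neg]; exact h.1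

theorem TA.not_lin {S : Set (E 2)} {τ ν y : E 2} (h : TA S τ ν y) {u : E 2} {ε : ℝ} :
    ¬ Lin S y u ε := by
  obtain ⟨v, ε', hT, -⟩ := h
  exact fun hL => lin_not_tri hL hT

theorem TA.tri {S : Set (E 2)} {τ ν y : E 2} (h : TA S τ ν y) : ∃ u ε, Tri S y u ε := by
  obtain ⟨v, ε', hT, -⟩ := h
  exact ⟨v, ε', hT⟩

/-- reindexing a tripod -/
theorem tri_perm {S : Set (E 2)} {y : E 2} {u : Fin 3 → E 2} {ε : ℝ} (h : Tri S y u ε)
    (σ : Equiv.Perm (Fin 3)) : Tri S y (u ∘ σ) ε where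
  pos := h.pos
  norm i := h.norm _
  ang i j hij := h.ang _ _ fun h' => hij (σ.injective h')
  eq := by
    rw [h.eq]
    ext z
    constructor
    · rintro ⟨i, s, h1, h2, h3⟩
      exact ⟨σ.symm i, s, h1, h2, by rw [Function.comp_apply, Equiv.apply_symm_apply]; exact h3⟩
    · rintro ⟨i, s, h1, h2, h3⟩
      exact ⟨σ i, s, h1, h2, h3⟩

theorem tri_arm {S : Set (E 2)} {y : E 2} {u : Fin 3 → E 2} {ε : ℝ} (h : Tri S y u ε) (i : Fin 3) :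
    ∃ ε₀ : ℝ, 0 < ε₀ ∧ ∀ s, 0 < s → s < ε₀ → ∃ ε', Lin S (y + s • u i) (u i) ε' :=
  ⟨ε, h.pos, fun _ h0 h1 => ⟨_, h.lin i h0 h1⟩⟩

/-- unit vectors of the plane at 120 degrees from `-τ` -/
theorem Fr.at120 {τ ν : E 2} (h : Fr τ ν) {v : E 2} (hv : ‖v‖ = 1)
    (hi : inner ℝ (-τ) v = -(1 / 2 : ℝ)) : v = e1 τ ν ∨ v = -e2 τ ν := by
  have h1 := h.sq v
  rw [hv] at h1
  have h2 : inner ℝ v τ = (1 / 2 : ℝ) := by
    rw [inner_neg_left, real_inner_comm] at hi; linarith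
  rw [h2] at h1
  have h3 : (inner ℝ v ν - √3 / 2) * (inner ℝ v ν + √3 / 2) = (0 : ℝ) := by
    nlinarith [s3]
  rcases mul_eq_zero.1 h3 with h4 | h4
  · left
    exact h.inj (by rw [h2, h.e1t]) (by rw [h.e1n]; linarith)
  · right
    exact h.inj (by rw [h2, inner_neg_left, h.e2t]; norm_num)
      (by rw [inner_neg_left, h.e2n]; linarith)

/-- unit vectors of the plane at 120 degrees from `-e2` -/
theorem Fr.at120' {τ ν : E 2} (h : Fr τ ν) {v : E 2} (hv : ‖v‖ = 1)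
    (hi : inner ℝ (-e2 τ ν) v = -(1 / 2 : ℝ)) : v = -τ ∨ v = e1 τ ν := by
  have h1 := h.sq v
  rw [hv] at h1
  have h2 : inner ℝ (e2 τ ν) v = (1 / 2 : ℝ) := by
    rw [inner_neg_left] at hi; linarith
  rw [h.in2, h.e2t, h.e2n] at h2
  set a : ℝ := inner ℝ v τ
  set b : ℝ := inner ℝ v ν
  have ha : a = √3 * b - 1 := by linarith
  have h3 : b * (b - √3 / 2) = 0 := by
    rw [ha] at h1
    nlinarith [s3]
  rcases mul_eq_zero.1 h3 with h4 | h4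
  · left
    refine h.inj ?_ ?_
    · rw [inner_neg_left, h.tt]
      change a = -1
      rw [ha, h4]; ring
    · rw [inner_neg_left, h.o]
      change b = -0
      rw [h4]; ring
  · right
    refine h.inj ?_ ?_
    · rw [h.e1t]
      change a = 1 / 2
      rw [ha]
      have : b = √3 / 2 := by linarith
      rw [this]
      nlinarith [s3]
    · rw [h.e1n]
      change b = √3 / 2
      linarith

theorem Fr.t_ne {τ ν : E 2} (h : Fr τ ν) {u v : E 2} (hu : ‖u‖ = 1)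
    (huv : inner ℝ u v = -(1 / 2 : ℝ)) : u ≠ v := by
  rintro rfl
  rw [real_inner_self_eq_norm_sq, hu] at huv
  norm_num at huv

end PU
end H11ST
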